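import Pool.Agent.helper80.SG.Spec2

/-!
# Project sq: (MP_b5a345_ag), module TT5
-/

set_option autoImplicit false
set_option linter.unusedSectionVars false

namespace Pool.Agent.SG

open MvPolynomial Module Pool.Agent.SV

theorem TT5_fun (b : ℕ) (q : Fin 4 → ℕ) (f : Option (Fin 4) → ℕ) (hn : f none = b)
    (hs : ∀ ρ, f (some ρ) = q ρ) :
    f =
      (0 : Option (Fin 4) → ℕ) + Pi.single (some 3) (q 3) + Pi.single (some 2) (q 2)
        + Pi.single none b + Pi.single (some 1) (q 1) + Pi.single (some 0) (q 0) := by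
  funext t
  rcases t with _ | ρ
  · simp [hn]
  · rw [hs]
    fin_cases ρ <;> simp

theorem TT5_sum (D : ℕ) (q : Fin 4 → ℕ) :
    ∑ ρ, q ρ * rk D ρ = q 0 * 3 + q 1 * 4 + q 2 * (D + 2) + q 3 * (2 * D) := by
  rw [Fin.sum_univ_four]
  simp [rk]

theorem TT5_wsum (D : ℕ) (a : Option (Fin 4) → ℕ) :
    ∑ t, a t * rk5 D t = a none * D + (a (some 0) * 3 + a (some 1) * 4 + a (some 2) * (D + 2)
      + a (some 3) * (2 * D)) := by
  rw [Fintype.sum_option, Fin.sum_univ_four]
  simp [rk5, rk]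

theorem TT5 (hABM : ABM_stmt) (hRKM : RKM_stmt) (hLP : LP5_stmt) (hDF : DF5_stmt)
    (hVS : VS5_stmt) (hRU : RU5_stmt) (hRL : RL5_stmt) : TT5_stmt := by
  intro ι κ _ _ _ _ c T d hc hT hT2 hsum hD b q h1 h2
  set D := Dk c Finset.univ d with hDdef
  set F := finrank ℂ (Sec c Finset.univ d) with hF
  have hex : ∃ k, 1 ≤ d k := by
    by_contra hne
    have hne' : ∀ k, d k = 0 := by
      intro k
      by_contra h0
      exact hne ⟨k, Nat.one_le_iff_ne_zero.2 h0⟩
    rw [Finset.sum_eq_zero (fun k _ => hne' k)] at hsum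
    exact absurd hsum (by norm_num)
  have hup := hRU c T d hc
  obtain ⟨r1, r2, r3⟩ := hRKM (Phi5 c T d)
  have hcc : ∀ t, ccM (Phi5 c T d) t 0 = rk5 D t := by
    intro t
    apply le_antisymm
    · have := r2 t (rk5 D t) (hup t) 0
      unfold ccM
      omega
    · obtain ⟨P, hP⟩ := hRL c T d hc hT hT2 hsum t
      exact r3 t (rk5 D t) P hP
  have hB : ∀ t, rk5 D t ≤ 2 * D := by
    intro t
    rcases t with _ | ρ
    · show D ≤ 2 * D
      omega
    · fin_cases ρ
      · show rk D 0 ≤ 2 * D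
        simp only [rk]; simp; omega
      · show rk D 1 ≤ 2 * D
        simp only [rk]; simp; omega
      · show rk D 2 ≤ 2 * D
        simp only [rk]; simp; omega
      · show rk D 3 ≤ 2 * D
        simp only [rk]; simp
  have key : ∀ (o : Option (Fin 4)) (a : Option (Fin 4) → ℕ) (g : ℕ),
      ∑ t, a t * rk5 D t + g * rk5 D o + rk5 D o * (2 * D) ≤ F →
      dmM (Phi5 c T d) (a + Pi.single o g) + g * rk5 D o = dmM (Phi5 c T d) a := by
    intro o a g h
    rw [← hcc o]
    exact hABM (Phi5 c T d) (hLP c T d) o (hDF c T d o) (fun f hf => hVS c T d hex o f hf)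
      (rk5 D) (2 * D) hup hB a g h
  have hk3 : rk5 D (some 3) = 2 * D := by simp [rk5, rk]
  have hk2 : rk5 D (some 2) = D + 2 := by simp [rk5, rk]
  have hkn : rk5 D none = D := by simp [rk5]
  have hk1 : rk5 D (some 1) = 4 := by simp [rk5, rk]
  have hk0 : rk5 D (some 0) = 3 := by simp [rk5, rk]
  rw [TT5_sum] at h1
  have hq4 : 8 * D ≤ 2 * D ^ 2 + 8 := by nlinarith [sq_nonneg ((D : ℤ) - 2), hD]
  have hq2 : 4 * D ≤ 2 * D ^ 2 := by nlinarith
  have s1 := key (some 3) 0 (q 3) (by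
    rw [TT5_wsum, hk3]
    simp only [Pi.zero_apply]
    nlinarith)
  have s2 := key (some 2) (0 + Pi.single (some 3) (q 3)) (q 2) (by
    rw [TT5_wsum, hk2]
    simp
    nlinarith)
  have s3 := key none (0 + Pi.single (some 3) (q 3) + Pi.single (some 2) (q 2)) b (by
    rw [TT5_wsum, hkn]
    simp
    nlinarith)
  have s4 := key (some 1) (0 + Pi.single (some 3) (q 3) + Pi.single (some 2) (q 2)
      + Pi.single none b) (q 1) (by
    rw [TT5_wsum, hk1]
    simp
    nlinarith)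
  have s5 := key (some 0) (0 + Pi.single (some 3) (q 3) + Pi.single (some 2) (q 2)
      + Pi.single none b + Pi.single (some 1) (q 1)) (q 0) (by
    rw [TT5_wsum, hk0]
    simp
    nlinarith)
  refine (congrArg (fun f => dmM (Phi5 c T d) f + b * D + ∑ ρ, q ρ * rk D ρ)
    (TT5_fun b q _ rfl (fun _ => rfl))).trans ?_
  show dmM (Phi5 c T d) _ + b * D + ∑ ρ, q ρ * rk D ρ = F
  rw [TT5_sum]
  rw [hk3] at s1
  rw [hk2] at s2
  rw [hkn] at s3
  rw [hk1] at s4
  rw [hk0] at s5
  rw [r1] at s1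
  omega

end Pool.Agent.SG
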